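import Pool.Agent.X234.PJ.Main
import Pool.Agent.Helper227.CD.Pos
import Pool.Agent.Helper227.Test

set_option autoImplicit false

/-!
# MP_5eff62_lc, Q1 and Q2: projections of points of dimension greater than one are random

Let `x` be a point of the plane with effective dimension `dim(x) > 1`, and let the direction
`e = (cos 2πθ, sin 2πθ)`, `0 ≤ θ < 1`, be Martin-Löf random relative to `x`. Then `e · x` is
Martin-Löf random relative to `e` (this answers Q2), and in particular Martin-Löf random (this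
answers Q1).
-/

namespace Pool.Agent.Results.MP_5eff62_lc.ProjectionsRandom

open Pool.Agent.Helper227
open Pool.Agent.X234.TD (PrefixUniversal K IsCoding)
open scoped ENNReal
open Filter

/-- `K_r(x)`: the least complexity of a rational vector at distance at most `2 ^ (-r)` from
`x`. -/
noncomputable def Kr (U : List Bool →. List Bool) (code : ℚ × ℚ → List Bool) (x : ℝ × ℝ)
    (r : ℕ) : ℕ :=
  sInf {n | ∃ q : ℚ × ℚ, √(((q.1 : ℝ) - x.1) ^ 2 + ((q.2 : ℝ) - x.2) ^ 2) ≤ (1 / 2) ^ r ∧
    n = K U (code q)}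

/-- The effective dimension `liminf K_r(x) / r` of the point `x`. -/
noncomputable def dim (U : List Bool →. List Bool) (code : ℚ × ℚ → List Bool) (x : ℝ × ℝ) :
    ℝ≥0∞ :=
  liminf (fun r : ℕ => (Kr U code x r : ℝ≥0∞) / (r : ℝ≥0∞)) atTop

/-- The binary digits of the fractional part of the real `t`: the digit with index `n` is the
digit of weight `2 ^ (-(n + 1))`, that is, the parity of `⌊2 ^ (n + 1) t⌋`. -/
noncomputable def digits (t : ℝ) : ℕ → Bool := fun n => decide (⌊2 ^ (n + 1) * t⌋ % 2 = 1)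

/-- The projection `e · x` for `e = (cos 2πθ, sin 2πθ)`. -/
noncomputable def proj (θ : ℝ) (x : ℝ × ℝ) : ℝ :=
  Real.cos (2 * Real.pi * θ) * x.1 + Real.sin (2 * Real.pi * θ) * x.2

theorem dim_le_dim (U : List Bool →. List Bool) (code : ℚ × ℚ → List Bool) (x : ℝ × ℝ) :
    dim U code x ≤ Pool.Agent.X234.TD.dim U code x := by
  refine liminf_le_liminf (Eventually.of_forall fun r => ?_)
  obtain ⟨q, h1, h2⟩ := Pool.Agent.X234.TD.Kr_spec U code x r
  have h3 : Kr U code x r ≤ Pool.Agent.X234.TD.Kr U code x r := by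
    rw [h2]
    exact Nat.sInf_le ⟨q, h1.le, rfl⟩
  change (Kr U code x r : ℝ≥0∞) / (r : ℝ≥0∞) ≤ _
  gcongr

theorem result : (∃ U, PrefixUniversal U) ∧ (∃ code, IsCoding code) ∧
    ∀ U, PrefixUniversal U → ∀ code, IsCoding code → ∀ (x : ℝ × ℝ) (θ : ℝ),
      1 < dim U code x → 0 ≤ θ → θ < 1 → MLR (join (digits x.1) (digits x.2)) (digits θ) →
        MLR (digits θ) (digits (proj θ x)) ∧ MLR (fun _ => false) (digits (proj θ x)) := by
  refine ⟨Pool.Agent.Helper227.exists_isUniversal, Pool.Agent.X234.TD.exists_coding, ?_⟩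
  intro U hU code hc x θ hdim h0 h1 hθ
  have h2 : MLR (digits θ) (digits (proj θ x)) := by
    have h3 := Pool.Agent.X234.PJ.main hU hc x.1 x.2 θ
      (lt_of_lt_of_le hdim (dim_le_dim U code x)) h0 h1 hθ
    rw [show proj θ x = x.1 * Real.cos (2 * Real.pi * θ) + x.2 * Real.sin (2 * Real.pi * θ) by
      unfold proj; ring]
    exact h3
  refine ⟨h2, ?_⟩
  refine MLR.mono ?_ h2
  exact Partrec.turingReducible (f := chi fun _ => false) (Computable.const (0 : ℕ)).partrec

end Pool.Agent.Results.MP_5eff62_lc.ProjectionsRandom
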